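import Pool.Agent.MVO.StmtsF
import Pool.Agent.Helper24_MVO.FCC

/-!
# Squad MVO, row TLO (helper3): tightness for pairs with a local letter in class c3
-/

set_option autoImplicit false

namespace Pool.Agent.MVO.H3

open Pool.Agent.Helper14_MV Pool.Agent.Helper2_MV Pool.Agent.MVO
open Pool.Agent.MVO.H35 (f2 f5 deg_psh flp_same flp_ne bl_zero_left bl_zero_right)
open Pool.Agent.MVO.H24 (le_psh)

theorem bt_zero {ρ : FIC} {k : ℕ} {a b : ℕ → ℕ} {i : ℕ} (h : a i = 0 ∨ b i = 0) :
    Bt ρ k a b i := by
  intro e
  have : w2 k a b e = w2 k a b (flp e i) := by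
    unfold w2
    apply asm_congr
    intro j hj
    by_cases hji : j = i
    · subst hji
      rcases h with h0 | h0
      · rw [h0]
        exact bl_zero_left _ _ _
      · rw [h0]
        exact bl_zero_right _ _ _
    · rw [flp_ne hji]
  unfold Ex
  rw [← this]
  exact RR.refl _

theorem deg_pair {k i j : ℕ} {a : ℕ → ℕ} (hi : i ≤ k) (hj : j ≤ k) (hij : i ≠ j) :
    a i + a j ≤ deg k a := by
  unfold deg
  have h3 : ∑ m ∈ ({i, j} : Finset ℕ), a m ≤ ∑ m ∈ Finset.range (k + 1), a m := by
    apply Finset.sum_le_sum_of_subset
    intro m hm
    rw [Finset.mem_insert, Finset.mem_singleton] at hm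
    rw [Finset.mem_range]
    omega
  rw [Finset.sum_pair hij] at h3
  exact h3

theorem deg_single {k i : ℕ} {a : ℕ → ℕ} (hi : i ≤ k) (h : ∀ j ≤ k, j ≠ i → a j = 0) :
    deg k a = a i := by
  unfold deg
  apply Finset.sum_eq_single i
  · intro j hj hji
    rw [Finset.mem_range] at hj
    exact h j (by omega) hji
  · intro hn
    exact absurd (Finset.mem_range.2 (by omega)) hn

theorem tlo (hF : FcnStmt) (hZ : ZfrStmt) (hL : LoxStmt) : TloStmt := by
  intro ρ hρ k a a' b i hda hdd hl hne hdb hik hab
  by_cases h0 : a i = 0 ∨ b i = 0
  · exact bt_zero h0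
  have hai : 1 ≤ a i := by omega
  have hbi : 1 ≤ b i := by omega
  rcases hab with hab | hab
  · -- the letter 0 is local
    by_cases hB : ∃ j < i, 1 ≤ b j
    · by_cases hA : ∃ j ≤ k, i < j ∧ 1 ≤ b j
      · exact hL ρ hρ k a b i hik (by omega) hdb hab (Or.inr (Or.inr (Or.inl ⟨hB, hA⟩)))
      · have hA' : ∀ j ≤ k, i < j → b j = 0 := by
          intro j hj hij
          by_contra hc
          exact hA ⟨j, hj, hij, by omega⟩
        by_cases h3 : 3 ≤ deg k b
        · exact hL ρ hρ k a b i hik (by omega) hdb hab
            (Or.inr (Or.inr (Or.inr (Or.inr ⟨hA', h3⟩))))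
        · obtain ⟨p, hp, hbp⟩ := hB
          obtain ⟨f, hfd⟩ : ∃ f : ℕ → ℕ, f = fun j => if j < i then p else j := ⟨_, rfl⟩
          have hf1 : ∀ j, j < i → f j = p := by
            intro j hj
            rw [hfd]
            exact if_pos hj
          have hf2 : ∀ j, i ≤ j → f j = j := by
            intro j hj
            rw [hfd]
            exact if_neg (by omega)
          have hf : BMap k k f := by
            refine ⟨?_, ?_⟩
            · intro m j hmj hjk
              by_cases h1 : m < i
              · rw [hf1 m h1]
                by_cases h2 : j < i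
                · rw [hf1 j h2]
                · rw [hf2 j (by omega)]
                  omega
              · rw [hf2 m (by omega), hf2 j (by omega)]
                exact hmj
            · intro m hm
              by_cases h1 : m < i
              · rw [hf1 m h1]
                omega
              · rw [hf2 m (by omega)]
                exact hm
          have ha0 : ∀ j ≤ k, j ≠ i → a j = 0 := by
            intro j hj hji
            have := deg_pair (a := a) hik hj (Ne.symm hji)
            omega
          have hpa : ∀ j ≤ k, psh k f a j = a j := by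
            intro j hj
            unfold psh
            rw [Finset.sum_eq_single i]
            · rw [hf2 i (le_refl i)]
              by_cases hji : i = j
              · rw [if_pos hji, hji]
              · rw [if_neg hji, ha0 j hj (Ne.symm hji)]
            · intro m hm hmi
              rw [Finset.mem_range] at hm
              rw [ha0 m (by omega) hmi]
              split_ifs <;> rfl
            · intro hn
              exact absurd (Finset.mem_range.2 (by omega)) hn
          have hl2 : L1 ρ k a (psh k f a') :=
            (FC.ofFIC ρ).ext hpa (fun _ _ => rfl) ((FC.ofFIC ρ).push k f hf hl)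
          have hd2 : deg k (psh k f a') = deg k a' := deg_psh hf a'
          apply f2 hl2
          by_cases g0 : psh k f a' i = 0
          · exact bt_zero (Or.inl g0)
          by_cases g1 : ∃ j ≤ k, i < j ∧ 1 ≤ psh k f a' j
          · exact f5 ((hF ρ hρ.cc).1 k b (psh k f a') i hdb (by omega) hik g1
              (Or.inr (Or.inl ⟨p, hp, hbp⟩)))
          by_cases g2 : 1 ≤ psh k f a' p
          · exact hZ ρ hρ.cc k (psh k f a') b i p hik (by omega) (by omega) (by omega) hbi g2 hbp
          · exfalso
            have q1 : ∀ j ≤ k, j ≠ i → a' j = 0 := by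
              intro j hj hji
              have := le_psh (f := f) (a := a') hj
              rcases lt_or_gt_of_ne hji with h1 | h1
              · rw [hf1 j h1] at this
                omega
              · rw [hf2 j (by omega)] at this
                by_contra hc
                exact g1 ⟨j, hj, h1, by omega⟩
            have q2 := deg_single hik q1
            obtain ⟨j, hj, hjn⟩ := hne
            apply hjn
            by_cases hji : j = i
            · rw [hji]
              omega
            · rw [ha0 j hj hji, q1 j hj hji]
    · have hB' : ∀ j < i, b j = 0 := by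
        intro j hj
        by_contra hc
        exact hB ⟨j, hj, by omega⟩
      exact hL ρ hρ k a b i hik (by omega) hdb hab
        (Or.inr (Or.inr (Or.inr (Or.inl ⟨hB', Or.inl hda⟩))))
  · -- the letter 1 is local
    apply f5
    by_cases hB : ∃ j < i, 1 ≤ a j
    · by_cases hA : ∃ j ≤ k, i < j ∧ 1 ≤ a j
      · exact hL ρ hρ k b a i hik hdb (by omega) hab (Or.inr (Or.inr (Or.inl ⟨hB, hA⟩)))
      · have hA' : ∀ j ≤ k, i < j → a j = 0 := by
          intro j hj hij
          by_contra hc
          exact hA ⟨j, hj, hij, by omega⟩
        exact hL ρ hρ k b a i hik hdb (by omega) hab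
          (Or.inr (Or.inr (Or.inr (Or.inr ⟨hA', hda⟩))))
    · have hB' : ∀ j < i, a j = 0 := by
        intro j hj
        by_contra hc
        exact hB ⟨j, hj, by omega⟩
      exact hL ρ hρ k b a i hik hdb (by omega) hab
        (Or.inr (Or.inr (Or.inr (Or.inl ⟨hB', Or.inr hda⟩))))

end Pool.Agent.MVO.H3
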